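import Pool.Agent.H.MP_e3bf5d_lc.A

set_option autoImplicit false
set_option linter.unusedSimpArgs false
set_option linter.unusedVariables false

/-! First-move self-regulating pushdown automata form an infinite hierarchy. -/

namespace Pool.Agent.Results.MP_e3bf5d_lc.Hier

open Pool.Agent.H.MP_e3bf5d_lc List Sum

attribute [-simp] List.map_subtype

/-- Computations. The label `r` names the rule `ru r = (Z, q, x, γ, p)`, i.e. `Z q x → γ p`; pushdown
words are written top first. `Comp ru q α w μ f` says `α q w ⊢* f [μ]` (input read, pushdown empty). -/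
inductive Comp {Q Γ Ψ : Type} (ru : Ψ → Γ × Q × List ℕ × List Γ × Q) :
    Q → List Γ → List ℕ → List Ψ → Q → Prop
  | nil (f) : Comp ru f [] [] [] f
  | cons {r Z q x γ p α v μ f} : ru r = (Z, q, x, γ, p) → Comp ru p (γ ++ α) v μ f →
      Comp ru q (Z :: α) (x ++ v) (r :: μ) f

/-- The last label of the list is its earliest label with property `P`. -/
def Fst {Ψ : Type} (P : Ψ → Prop) (l : List Ψ) : Prop := ∃ u r, l = u ++ [r] ∧ P r ∧ ∀ x ∈ u, ¬ P x

/-- `Bl R k m h v`: `v` is a concatenation of `m` blocks of length `k + 1` whose first labels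
`r₁, …, r_m` satisfy `R h r₁, R r₁ r₂, …`. -/
def Bl {Ψ : Type} (R : Ψ → Ψ → Prop) (k : ℕ) : ℕ → Ψ → List Ψ → Prop
  | 0, _, v => v = []
  | m + 1, h, v => ∃ r u v', v = r :: u ++ v' ∧ u.length = k ∧ R h r ∧ Bl R k m r v'

/-- Languages of `n`-turn first-move self-regulating pushdown automata: the words with an accepting
computation `μ = μ₀ μ₁ ⋯ μ_n`, `μ₀ = h :: u`, of the prescribed shape. -/
def FSPDA (n : ℕ) : Set (Set (List ℕ)) :=
  {L | ∃ (Q Γ Ψ : Type) (_ : Finite Q) (_ : Finite Γ) (_ : Finite Ψ)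
    (ru : Ψ → Γ × Q × List ℕ × List Γ × Q) (q₀ qt : Q) (Z₀ : Γ) (F : Set Q) (R : Ψ → Ψ → Prop),
      ru.Injective ∧ L = {w | ∃ f ∈ F, ∃ h u v, Comp ru q₀ [Z₀] w (h :: u ++ v) f ∧
        Fst (fun r => (ru r).2.2.2.2 = qt) (h :: u) ∧ Bl R u.length n h v}}

section
variable {Q Γ Ψ : Type}

abbrev C (ru : Ψ → Γ × Q × List ℕ × List Γ × Q) :=
  Cp (fun r => (ru r).1) (fun r => (ru r).2.1) (fun r => (ru r).2.2.2.2) fun r => (ru r).2.2.2.1

theorem comp_iff {ru : Ψ → Γ × Q × List ℕ × List Γ × Q} {q α w μ f} :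
    Comp ru q α w μ f ↔ C ru q α μ f ∧ w = μ.flatMap fun r => (ru r).2.2.1 := by
  constructor
  · intro h
    induction h with
    | nil => exact ⟨.nil _, rfl⟩
    | @cons r _ _ _ _ _ α _ μ f e _ ih =>
      have := Cp.cons (top := fun r => (ru r).1) (src := fun r => (ru r).2.1) (r := r) (α := α)
        (tgt := fun r => (ru r).2.2.2.2) (push := fun r => (ru r).2.2.2.1) (μ := μ) (q := f)
      simp only [e] at this
      exact ⟨this ih.1, by simp [e, ih.2]⟩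
  · rintro ⟨h, rfl⟩
    induction h with
    | nil => exact .nil _
    | cons _ ih => exact .cons rfl ih

theorem fst_cons {P : Ψ → Prop} {x l} : Fst P (x :: l) ↔ l = [] ∧ P x ∨ ¬ P x ∧ Fst P l := by
  constructor
  · rintro ⟨_ | ⟨y, u⟩, r, ⟨⟩, a, b⟩
    exacts [.inl ⟨rfl, a⟩, .inr ⟨b _ (.head _), u, r, rfl, a, fun _ q => b _ (.tail _ q)⟩]
  · rintro (⟨rfl, a⟩ | ⟨a, u, r, rfl, b, c⟩)
    exacts [⟨[], x, rfl, a, nofun⟩, ⟨x :: u, r, rfl, b, forall_mem_cons.2 ⟨a, c⟩⟩]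

theorem mono {top : Ψ → Γ} {src tgt : Ψ → Q} {push p α μ q} (g : Q → ℕ) (hg : ∀ r, g (src r) ≤ g (tgt r))
    (h : Cp top src tgt push p α μ q) :
    (∀ r ∈ μ, g p ≤ g (src r)) ∧ μ.Pairwise fun a b => g (tgt a) ≤ g (src b) := by
  induction h with
  | nil => simp
  | cons _ ih => exact ⟨forall_mem_cons.2 ⟨le_rfl, fun r a => (hg _).trans (ih.1 r a)⟩, .cons ih.1 ih.2⟩

def Pth {A : Type} {T : Ψ × A × A → Prop} : A → List (Subtype T) → A → Prop
  | a, [], b => a = b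
  | a, x :: l, b => x.1.2.1 = a ∧ Pth x.1.2.2 l b

theorem prod_iff {A : Type} {T : Ψ × A × A → Prop} {top : Ψ → Γ} {src tgt : Ψ → Q} {push}
    {l : List (Subtype T)} {b} : ∀ {p α}, Cp (fun x : Subtype T => top x.1.1) (fun x => (src x.1.1, x.1.2.1))
      (fun x => (tgt x.1.1, x.1.2.2)) (fun x => push x.1.1) p α l b ↔
        Cp top src tgt push p.1 α (l.map (·.1.1)) b.1 ∧ Pth p.2 l b.2 := by
  induction l with
  | nil =>
    obtain ⟨_, _⟩ := b
    rintro ⟨_, _⟩ _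
    refine ⟨fun h => by cases h; exact ⟨.nil _, rfl⟩, ?_⟩
    rintro ⟨⟨⟩, ⟨⟩⟩
    exact .nil _
  | cons x l ih =>
    rintro ⟨_, _⟩ _
    refine ⟨fun h => by cases h with | cons h => exact ⟨.cons (ih.1 h).1, rfl, (ih.1 h).2⟩, ?_⟩
    rintro ⟨_ | h, rfl, h'⟩
    exact .cons (ih.2 ⟨h, h'⟩)

theorem low {n m : ℕ} (hm : 2 * (n + 1) < m) {L} (hL : L ∈ FSPDA n)
    (h1 : ∀ w ∈ L, w.Pairwise (· ≤ ·) ∧ (∀ a ∈ w, a < m) ∧ ∀ a < m, w.count a = w.count 0)
    (h2 : ∀ i, ∃ w ∈ L, w.count 0 = i + 2) : False := by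
  classical
  obtain ⟨Q, Γ, Ψ, _, _, _, ru, q₀, qt, Z₀, F, R, -, rfl⟩ := hL
  simp only [comp_iff, Set.mem_setOf_eq] at h1 h2
  have := Fintype.ofFinite Q
  have := Fintype.ofFinite Ψ
  let P := fun r => (ru r).2.2.2.2 = qt
  let T := fun x : Ψ × (Fin (n + 1) × Option Ψ × Prop × Fin m) × Fin (n + 1) × Option Ψ × Prop × Fin m =>
    x.2.1.2.2.2 ≤ x.2.2.2.2.2 ∧ (∀ a ∈ (ru x.1).2.2.1, x.2.1.2.2.2 ≤ a ∧ a ≤ x.2.2.2.2.2) ∧
      x.2.2.2.2.1 = P x.1 ∧ (x.2.2.1 = x.2.1.1 ∧ x.2.2.2.1 = some (x.2.1.2.1.getD x.1) ∧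
        (x.2.1.1 = 0 → ¬ x.2.1.2.2.1) ∨ x.2.2.1.1 = x.2.1.1 + 1 ∧ x.2.2.2.1 = some x.1 ∧
          (∃ h ∈ x.2.1.2.1, R h x.1) ∧ (x.2.1.1 = 0 → x.2.1.2.2.1))
  let g := fun (j : Fin (n + 1)) (x : Subtype T) => if x.1.2.2.1 = j then 1 else 0
  let W := fun k (j : Fin (n + 1)) h (t : Prop) μ c => ∃ u v, μ = u ++ v ∧ u.length = c ∧
    Bl R k (n - j) h v ∧ (j = 0 → u = [] ∧ t ∨ ¬ t ∧ Fst P u)
  have dn : ∀ k b (l : List (Subtype T)) j h t a, Pth (j, some h, t, a) l b → b.1 = n →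
      (b.1 = 0 → b.2.2.1) → (∀ i, j < i → (l.map (g i)).sum = k + 1) →
      (∀ i < j, (l.map (g i)).sum = 0) ∧ W k j h t (l.map (·.1.1)) (l.map (g j)).sum := fun k b l => by
    induction l with
    | nil => rintro j h t a rfl e e' -; exact ⟨by simp, [], [], rfl, rfl, by simp_all [Bl], fun q => .inl ⟨rfl, e' q⟩⟩
    | cons x l ih =>
      obtain ⟨⟨r, _, j', _, _, a'⟩, hx⟩ := x
      rintro j h t a ⟨⟨⟩, p⟩ e e' c
      obtain ⟨-, -, x3, x4⟩ := id hx
      dsimp only [Option.getD_some] at x3 x4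
      subst x3
      obtain ⟨rfl, rfl, x4⟩ | ⟨x3, rfl, ⟨_, ⟨⟩, x5⟩, x4⟩ := x4
      · obtain ⟨a, u, v, b1, b2, b3, b4⟩ := ih _ _ _ _ p e e' fun i q => by simpa [g, q.ne] using c i q
        exact ⟨fun i q => by simpa [g, q.ne'] using a i q, r :: u, v, congrArg (r :: ·) b1,
          by simp [b2, g, add_comm], b3, fun q => .inr ⟨x4 q, fst_cons.2 (b4 q)⟩⟩
      · have lt : j < j' := by rw [Fin.lt_def]; omega
        obtain ⟨a, u, v, b1, b2, b3, b4⟩ := ih _ _ _ _ p e e' fun i q => by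
          simpa [g, q.ne] using c i (lt.trans q)
        refine ⟨fun i q => by simpa [g, (q.trans lt).ne'] using a i (q.trans lt), [], r :: u ++ v,
          congrArg (r :: ·) b1, by simpa [g, lt.ne'] using (a j lt).symm, ?_, fun q => .inl ⟨rfl, x4 q⟩⟩
        rw [show n - j = n - j' + 1 by omega]
        exact ⟨r, u, v, rfl, by have := c j' lt; simp only [g, map_cons, sum_cons, if_true] at this b2; omega, x5, b3⟩
  have md : ∀ (r : Ψ) (v : List ℕ) (a : Fin m), ((ru r).2.2.1 ++ v).Pairwise (· ≤ ·) →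
      (∀ x ∈ (ru r).2.2.1 ++ v, a ≤ x ∧ x < m) → ∃ a' : Fin m, a ≤ a' ∧
        (∀ x ∈ (ru r).2.2.1, a ≤ x ∧ x ≤ a') ∧ v.Pairwise (· ≤ ·) ∧ ∀ x ∈ v, a' ≤ x ∧ x < m :=
    fun r v a p q => by
      obtain e | ⟨x, b, e⟩ := eq_nil_or_concat' (ru r).2.2.1 <;> rw [e] at p q ⊢
      · exact ⟨a, le_rfl, nofun, p, q⟩
      · simp only [pairwise_append, mem_append, mem_singleton, or_imp, forall_and, forall_eq] at p q ⊢
        exact ⟨⟨b, q.2.1.2⟩, q.1.1.2, ⟨q.1.1, p.1.2.2, le_rfl⟩, p.2.1, p.2.2.2, q.2.2⟩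
  have up : ∀ k μ c j h t (a : Fin m), W k j h t μ c → (μ.flatMap fun r => (ru r).2.2.1).Pairwise (· ≤ ·) →
      (∀ x ∈ μ.flatMap fun r => (ru r).2.2.1, a ≤ x ∧ x < m) → ∃ (l : List (Subtype T)) (b : _),
        Pth (j, some h, t, a) l b ∧ l.map (·.1.1) = μ ∧ b.1 = n ∧ (b.1 = 0 → b.2.2.1) ∧
          ∀ i, (l.map (g i)).sum = if i < j then 0 else if i = j then c else k + 1 := fun k μ => by
    induction μ with
    | nil =>
      rintro _ j h t a ⟨u, v, e, rfl, b, c⟩ - -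
      obtain ⟨rfl, rfl⟩ := append_eq_nil_iff.1 e.symm
      have : j = n := by
        by_contra q
        rw [show n - j = n - j - 1 + 1 by omega] at b
        simp [Bl] at b
      exact ⟨[], _, rfl, rfl, this, by simpa [Fst] using c, fun i => by
        simp only [map_nil, sum_nil, length_nil, Fin.lt_def, Fin.ext_iff]; split_ifs <;> omega⟩
    | cons r μ ih =>
      rintro _ j h t a ⟨u, v, e, rfl, b, c⟩ p q
      obtain ⟨a', d1, d2, d3, d4⟩ := md r _ a p q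
      obtain _ | ⟨_, u⟩ := u
      · obtain rfl : _ = v := e
        obtain ⟨s, e⟩ : ∃ s, n - j = s + 1 := Nat.exists_eq_succ_of_ne_zero fun q => by simp [q, Bl] at b
        obtain ⟨_, u, v, ⟨⟩, rfl, b1, b2⟩ := e ▸ b
        obtain ⟨l, b, c1, c2, c3, c4, c5⟩ := ih _ ⟨j + 1, by omega⟩ r (P r) a' ⟨u, v, rfl, rfl,
          by rwa [show n - (j + 1) = s by omega], fun q => nomatch congrArg Fin.val q⟩ d3 d4
        refine ⟨⟨(r, (j, some h, t, a), _), d1, d2, rfl, .inr ⟨rfl, rfl, ⟨h, rfl, b1⟩,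
          by simpa [Fst] using c⟩⟩ :: l, b, ⟨rfl, c1⟩, congrArg _ c2, c3, c4, fun i => ?_⟩
        rw [map_cons, sum_cons, c5]
        simp only [g, Fin.lt_def, Fin.ext_iff, length_nil]
        split_ifs <;> omega
      · cases e
        obtain ⟨l, b, c1, c2, c3, c4, c5⟩ := ih _ j h (P r) a' ⟨u, v, rfl, rfl, b,
          fun q => fst_cons.1 (by simpa using (c q).imp_right And.right)⟩ d3 d4
        refine ⟨⟨(r, (j, some h, t, a), j, some h, P r, a'), d1, d2, rfl, .inl ⟨rfl, rfl,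
          fun q => by simpa using (c q).imp_right And.left⟩⟩ :: l, b, ⟨rfl, c1⟩, congrArg _ c2, c3, c4,
          fun i => ?_⟩
        rw [map_cons, sum_cons, c5]
        simp only [g, Fin.lt_def, Fin.ext_iff, length_cons]
        split_ifs <;> omega
  have : ∀ i, ∃ (l : List (Subtype T)) (b : Q × _), C ru q₀ [Z₀] (l.map (·.1.1)) b.1 ∧
      Pth (0, none, False, ⟨0, by omega⟩) l b.2 ∧ b.1 ∈ F ∧ b.2.1 = n ∧ (b.2.1 = 0 → b.2.2.2.1) ∧
      (∀ j, (l.map (g j)).sum = (l.map (g 0)).sum) ∧ 0 < (l.map (g 0)).sum ∧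
      (∀ a < m, (l.map fun x => (ru x.1.1).2.2.1.count a).sum = i + 2) := fun i => by
    obtain ⟨_, ⟨f, a, h, u, v, ⟨b, rfl⟩, c, d⟩, e⟩ := h2 i
    obtain ⟨p1, p2, p3⟩ := h1 _ ⟨f, a, h, u, v, ⟨b, rfl⟩, c, d⟩
    obtain ⟨a', d1, d2, d3, d4⟩ := md h _ ⟨0, by omega⟩ p1 fun x q => ⟨x.zero_le, p2 x q⟩
    obtain ⟨l, b', c1, c2, c3, c4, c5⟩ := up _ _ _ 0 h (P h) a' ⟨u, v, rfl, rfl, d,
      fun _ => fst_cons.1 c⟩ d3 d4
    refine ⟨⟨(h, (0, none, False, _), 0, some h, P h, a'), d1, d2, rfl, .inl ⟨rfl, rfl, fun _ => id⟩⟩ :: l, (f, b'),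
      by rwa [map_cons, c2], ⟨rfl, c1⟩, a, c3, c4, fun j => ?_, by simp [g], fun x q => ?_⟩
    · rw [map_cons, sum_cons, c5, map_cons, sum_cons, c5]
      simp only [g, Fin.lt_def, Fin.ext_iff, Fin.val_zero]
      split_ifs <;> omega
    · rw [← e, ← p3 x q, cons_append, ← c2]
      simp [count_flatMap, Function.comp_def]
  choose μ q a1 a2 a3 a4 a5 a6 a7 a8 using this
  obtain ⟨i, j, lt, X, e1, e2, e3⟩ := cpda (fun s : Q × _ × _ × _ × Fin m => s.2.2.2.2.1) (fun r : Subtype T => by exact r.2.1)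
    fun i => (prod_iff (T := T) (p := (q₀, 0, none, False, ⟨0, Nat.zero_lt_of_lt hm⟩))).2 ⟨a1 i, a2 i⟩
  have k : ∀ (G : Subtype T → ℕ) (y : _ → ℕ) (ν : List (Subtype T)),
      (ν : Multiset (Subtype T)) = (μ i : Multiset (Subtype T)) + ∑ c, y c • X c →
      (ν.map G).sum = ((μ i).map G).sum + ∑ c, y c * ((X c).map G).sum := fun G y ν e => by
    have := congrArg (Multiset.sumAddMonoidHom.comp (Multiset.mapAddMonoidHom G)) e
    simpa only [map_add, map_sum, map_nsmul, AddMonoidHom.comp_apply, Multiset.coe_mapAddMonoidHom,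
      Multiset.coe_sumAddMonoidHom, Multiset.map_coe, Multiset.sum_coe, smul_eq_mul] using this
  have k1 := fun G => k G 1 _ (by simpa using e1)
  simp only [Pi.one_apply, one_mul] at k1
  obtain ⟨y, y1, y2, y3⟩ := cara (fun c j => ((X c).map (g j)).sum)
    (fun c => ((X c).map fun x => (ru x.1.1).2.2.1.count 0).sum)
    (fun s => by have := k1 (g s); have := k1 (g 0); have := a6 i s; have := a6 j s; omega)
    (by have := k1 fun x => (ru x.1.1).2.2.1.count 0; rw [a8 i 0 (by omega), a8 j 0 (by omega)] at this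
        omega)
  obtain ⟨ν, b, e⟩ := e3 y
  obtain ⟨b1, b2⟩ : C ru _ _ _ _ ∧ _ := prod_iff.1 b
  have k2 := fun G => k G y ν e
  obtain ⟨x, x1, x2⟩ := Finset.exists_mem_notMem_of_card_lt_card (t := Finset.range m)
    (s := (Finset.univ.filter (y · ≠ 0)).biUnion fun c => {c.1.2.2.2.2.1, c.2.2.2.2.2.1})
    ((Finset.card_biUnion_le_card_mul _ _ 2 fun _ _ => Finset.card_le_two).trans_lt 
      (by simp only [Finset.card_range]; omega))
  have k3 : ∀ s, (ν.map (g s)).sum = (ν.map (g 0)).sum := fun s => by rw [k2, k2, a6, y2]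
  have k4 : 0 < (ν.map (g 0)).sum := by have := a7 i; rw [k2]; omega
  have k5 : ∀ a, (ν.map fun x => (ru x.1.1).2.2.1.count a).sum =
    ((ν.map (·.1.1)).flatMap fun r => (ru r).2.2.1).count a := by simp [count_flatMap, Function.comp_def]
  obtain _ | ⟨⟨⟨r, _, j', _, _, a'⟩, hx⟩, l⟩ := ν
  · simp at k4
  obtain ⟨⟨⟩, b2⟩ := b2
  obtain ⟨-, -, x3, x4⟩ := id hx
  dsimp only [Option.getD_none] at x3 x4
  subst x3
  obtain ⟨rfl, rfl, -⟩ | ⟨-, -, ⟨_, ⟨⟩, -⟩, -⟩ := x4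
  obtain ⟨-, u, v, c1, c2, c3, c4⟩ := dn (l.map (g 0)).sum _ l _ _ _ _ b2 (a4 i) (a5 i) fun s q => by
    simpa [g, q.ne, add_comm] using k3 s
  have := (h1 _ ⟨_, a3 i, r, u, v, ⟨by rwa [map_cons, c1] at b1, rfl⟩, fst_cons.2 (c4 rfl), c2 ▸ c3⟩).2.2 x
    (Finset.mem_range.1 x1)
  rw [cons_append, ← c1] at this
  replace := (k5 x).trans (this.trans (k5 0).symm)
  rw [k2, k2, a8 i x (Finset.mem_range.1 x1), a8 i 0 (by omega), Finset.sum_eq_zero fun c _ => ?_] at this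
  · omega
  by_cases y0 : y c = 0
  · simp [y0]
  refine mul_eq_zero_of_right _ (Multiset.sum_eq_zero fun _ t' => ?_)
  obtain ⟨t, t1, rfl⟩ := Multiset.mem_map.1 t'
  refine count_eq_zero.2 fun t2 => x2 (Finset.mem_biUnion.2 ⟨c, by simpa, ?_⟩)
  have := e2 c t t1
  dsimp only at this
  have := t.2.2.1 x t2
  simp only [Finset.mem_insert, Finset.mem_singleton]
  omega
end

def wr (n : ℕ) : Fin (n + 1) × Bool × Bool × Bool → Bool × (Fin (n + 2) × Fin 3) × List ℕ × List Bool ×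
    Fin (n + 2) × Fin 3
  | (j, true, X, s) => (X, (j.castSucc, if s then 1 else 0), [2 * j], if s then [true, X] else [X],
      j.castSucc, 1)
  | (j, false, true, s) => (true, (j.castSucc, if s then 1 else 2), [2 * j + 1], [], j.castSucc, 2)
  | (j, false, false, s) => (false, (j.castSucc, if s then 1 else 2), [2 * j + 1],
      if j.1 = n then [] else [false], j.succ, 0)

def wR {n : ℕ} (a b : Fin (n + 1) × Bool × Bool × Bool) : Prop :=
  b.1.1 = a.1 + 1 ∧ b.2.1 = true ∧ b.2.2.2 = false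

theorem wit (n : ℕ) : ∃ L ∈ FSPDA n, (∀ w ∈ L, w.Pairwise (· ≤ ·) ∧ (∀ a ∈ w, a < 2 * (n + 1)) ∧
    ∀ a < 2 * (n + 1), w.count a = w.count 0) ∧ ∀ i, ∃ w ∈ L, w.count 0 = i + 2 := by
  let I := fun μ : List _ => μ.flatMap fun r => (wr n r).2.2.1
  have k1 : ∀ j p α μ q, C (wr n) p α μ q → ∀ t, (α = replicate t true ++ [false] ∧ (p.2 = 0 → t = 0) ∨
      α = [] ∧ p.2 = 0) → (I μ).count (2 * j + 1) = (I μ).count (2 * j) +
        if p.1.1 = j ∧ p.2 ≠ 0 then t + 1 else 0 := fun j _ _ _ _ h => by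
    induction h with
    | nil => simp +contextual [I]
    | @cons r α _ _ _ ih =>
      obtain ⟨i, c, X, s⟩ := r
      rintro t (⟨e, e'⟩ | ⟨⟨⟩, -⟩)
      have h0 := ih 0
      have h1 := ih t
      have h2 := ih (t + 1)
      have h3 := ih (t - 1)
      clear ih
      cases t <;> cases c <;> cases X <;> cases s <;> simp only [wr] at e e' <;> cases e <;>
        simp [wr, I, replicate_succ, count_cons] at * <;> split_ifs at * <;>
          first | omega | (simp at *; omega)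
  have k2 : ∀ μ j, (I μ).count (2 * j + 1) + (I μ).count (2 * j) = (μ.map (·.1.1)).count j := fun μ j => by
    induction μ with
    | nil => rfl
    | cons r _ ih =>
      obtain ⟨i, _ | _, _ | _, s⟩ := r <;> simp [wr, I, count_cons] at * <;> split_ifs <;> omega
  have k3 : ∀ k m h v, Bl wR k m h v → h.1 + m = n → ∀ u, (h :: u ++ v).Pairwise (fun a b => a.1.1 ≤ b.1 ∧
      (b.2.1 = true → b.2.2.2 = false → a.1.1 < b.1)) → ∀ j ≤ n, ((h :: u ++ v).map (·.1.1)).count j =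
        if j < h.1 then 0 else if j = h.1 then u.length + 1 else k + 1 := fun k m => by
    have k4 : ∀ (u : List (Fin (n + 1) × Bool × Bool × Bool)) (i j : ℕ), (∀ x ∈ u, x.1 = i) →
        (u.map (·.1.1)).count j = if j = i then u.length else 0 := fun u i j e => by
      rw [map_congr_left e, map_const', count_replicate]; simp only [beq_iff_eq, @eq_comm _ i]
    induction m with
    | zero =>
      rintro h _ rfl e u p j q
      rw [append_nil] at *
      rw [k4 _ h.1 j (forall_mem_cons.2 ⟨rfl, fun x a => by have := rel_of_pairwise_cons p a; omega⟩),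
        length_cons]
      split_ifs <;> omega
    | succ m ih =>
      rintro h _ ⟨r, u', v, rfl, rfl, a, b⟩ e u p j q
      obtain ⟨p1, p2, p3⟩ := pairwise_append.1 p
      have := a.1
      rw [map_append, count_append, ih r v b (by omega) u' p2 j q, k4 _ h.1 j (forall_mem_cons.2 ⟨rfl,
        fun x c => by
          have := rel_of_pairwise_cons p1 c
          have := (p3 x (.tail _ c) r (.head _)).2 a.2.1 a.2.2
          omega⟩), length_cons]
      split_ifs <;> omega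
  have k4 : ∀ h u v f, C (wr n) (0, 0) [false] (h :: u ++ v) f → Bl wR u.length n h v →
      (I (h :: u ++ v)).Pairwise (· ≤ ·) ∧ (∀ a ∈ I (h :: u ++ v), a < 2 * (n + 1)) ∧
        ∀ a < 2 * (n + 1), 2 * (I (h :: u ++ v)).count a = u.length + 1 := fun h u v f c b => by
    have p := (mono (fun p => 3 * p.1.1 + p.2.1) (by
      rintro ⟨i, _ | _, _ | _, _ | _⟩ <;> simp [wr] <;> omega) c).2
    refine ⟨pairwise_flatMap.2 ⟨by rintro ⟨i, _ | _, _ | _, _⟩ - <;> simp [wr], p.imp ?_⟩, fun a e => ?_,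
      fun a e => ?_⟩
    · rintro ⟨i, _ | _, _ | _, _ | _⟩ ⟨j, _ | _, _ | _, _ | _⟩ <;> simp [wr] <;> omega
    · obtain ⟨⟨i, _ | _, _ | _, _⟩, -, e⟩ := mem_flatMap.1 e <;> simp [wr] at e <;> omega
    have e0 : h.1.1 = 0 := by
      generalize hp : ((0, 0) : Fin (n + 2) × Fin 3) = p at c
      generalize [false] = α at c
      cases c
      obtain ⟨i, _ | _, _ | _, _⟩ := h <;> exact (congrArg (·.1.1) hp).symm
    have := k1 (a / 2) _ _ _ _ c 0 (.inl ⟨rfl, fun _ => rfl⟩)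
    have := k2 (h :: u ++ v) (a / 2)
    rw [k3 _ _ _ _ b (by omega) u (p.imp ?_) _ (by omega), e0, if_neg (by omega), ite_self] at this
    · simp only [ne_eq, not_true, and_false, if_false] at *
      obtain e | e : 2 * (a / 2) = a ∨ 2 * (a / 2) + 1 = a := by omega
      all_goals simp only [e] at *; omega
    · rintro ⟨i, _ | _, _ | _, _ | _⟩ ⟨j, _ | _, _ | _, _ | _⟩ <;> simp [wr] <;> omega
  refine ⟨_, ⟨_, _, _, inferInstance, inferInstance, inferInstance, wr n, (0, 0), (1, 0), false,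
    Set.univ, wR, ?_, rfl⟩, ?_, fun t => ?_⟩
  · rintro ⟨i, _ | _, _ | _, _ | _⟩ ⟨j, _ | _, _ | _, _ | _⟩ <;> simp +contextual [wr] <;> omega
  · rintro _ ⟨f, -, h, u, v, c, -, b⟩
    obtain ⟨c', rfl⟩ := comp_iff.1 c
    obtain ⟨a1, a2, a3⟩ := k4 _ _ _ _ c' b
    exact ⟨a1, a2, fun a e => by have := a3 a e; have := a3 0 (by omega); dsimp only [I] at *; omega⟩
  have k5 : ∀ (j : Fin (n + 1)) t X, ∃ u : List _, u.length = 2 * t + 2 ∧ (∀ x ∈ u, (wr n x).2.2.2.2.2 ≠ 0) ∧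
      ∀ α μ q, C (wr n) (j.castSucc, 2) (X :: α) μ q → C (wr n) (j.castSucc, 1) (X :: α) (u ++ μ) q :=
    fun j t => by
      induction t with
      | zero => exact fun X => ⟨[(j, true, X, true), (j, false, true, true)], rfl, by simp [wr],
          fun _ _ _ c => .cons (r := (j, true, X, true)) (.cons (r := (j, false, true, true)) c)⟩
      | succ t ih =>
        obtain ⟨u, a, b, c⟩ := ih true
        exact fun X => ⟨(j, true, X, true) :: u ++ [(j, false, true, false)], by simp [a]; omega,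
          forall_mem_append.2 ⟨forall_mem_cons.2 ⟨by simp [wr], b⟩, by simp [wr]⟩, fun _ _ _ d => by
            rw [append_assoc]
            exact .cons (r := (j, true, X, true)) (c _ _ _ (.cons (r := (j, false, true, false)) d))⟩
  have k6 : ∀ m (j : Fin (n + 1)), j + m = n → ∃ u v q, u.length = 2 * t + 2 ∧
      (∀ x ∈ u, (wr n x).2.2.2.2.2 ≠ 0) ∧ Bl wR (2 * t + 3) m (j, true, false, false) v ∧ C (wr n)
        (j.castSucc, 0) [false] ((j, true, false, false) :: (u ++ [(j, false, false, false)]) ++ v) q :=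
    fun m => by
      induction m with
      | zero =>
        intro j e
        obtain ⟨u, a, b, c⟩ := k5 j t false
        refine ⟨u, [], (j.succ, 0), a, b, rfl, ?_⟩
        rw [append_nil]
        exact .cons (r := (j, true, false, false)) (c _ _ _ (.cons (r := (j, false, false, false))
          (by simpa [wr, show j.1 = n from e] using .nil _)))
      | succ m ih =>
        intro j e
        obtain ⟨u, a, b, c⟩ := k5 j t false
        obtain ⟨u', v, q, a', -, b', c'⟩ := ih ⟨j + 1, by omega⟩ (by dsimp only; omega)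
        refine ⟨u, _, q, a, b, ⟨_, u' ++ [(⟨j + 1, by omega⟩, false, false, false)], v, rfl, by simp [a'],
          ⟨rfl, rfl, rfl⟩, b'⟩, ?_⟩
        rw [cons_append, append_assoc]
        exact .cons (r := (j, true, false, false)) (c _ _ _ (.cons (r := (j, false, false, false)) (by
          rw [show (wr n (j, false, false, false)).2.2.2.1 = [false] from if_neg (by omega)]; exact c')))
  obtain ⟨u, v, q, a, b, c, d⟩ := k6 n 0 (by simp)
  have e : (u ++ [(0, false, false, false)]).length = 2 * t + 3 := by simp [a]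
  refine ⟨_, ⟨q, trivial, _, _, v, comp_iff.2 ⟨d, rfl⟩, ⟨_ :: u, _, rfl, rfl, forall_mem_cons.2
    ⟨by simp [wr], fun x y z => b x y (congrArg Prod.snd z)⟩⟩, e ▸ c⟩, ?_⟩
  have := (k4 _ _ _ _ d (e ▸ c)).2.2 0 (by omega)
  dsimp only [I] at *
  omega

theorem inv {R S Γ : Type} {top : R → Γ} {src tgt : R → S} {push p α r μ q}
    (h : Cp top src tgt push p α (r :: μ) q) :
    p = src r ∧ ∃ β, α = top r :: β ∧ Cp top src tgt push (tgt r) (push r ++ β) μ q := by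
  cases h with | cons h => exact ⟨rfl, _, rfl, h⟩

theorem incl (n : ℕ) : FSPDA n ⊆ FSPDA (n + 1) := by
  rintro _ ⟨Q, Γ, Ψ, _, _, _, ru, q₀, qt, Z₀, F, R, hi, rfl⟩
  let S := {x : Ψ × Bool × Fin (n + 2) × Fin (n + 2) // x.2.2.1.1 ≤ x.2.2.2 ∧ x.2.2.2.1 ≤ n ∧
    (x.2.1 = true → (ru x.1).1 = Z₀ ∧ x.2.2.2 = 0)}
  let ru' : S ⊕ F × Fin (n + 2) × Bool → (Γ ⊕ Bool) × (Q × Fin (n + 2)) × List ℕ × List (Γ ⊕ Bool) ×
      Q × Fin (n + 2) := Sum.elim
    (fun x => (if x.1.2.1 then inr true else inl (ru x.1.1).1, ((ru x.1.1).2.1, x.1.2.2.1), (ru x.1.1).2.2.1,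
      (ru x.1.1).2.2.2.1.map inl ++ if x.1.2.1 then [inr false] else [], (ru x.1.1).2.2.2.2, x.1.2.2.2))
    fun x => (inr false, (x.1, x.2.1), [], if x.2.2 then [inr false] else [], x.1, .last _)
  let R' : S ⊕ F × Fin (n + 2) × Bool → S ⊕ F × Fin (n + 2) × Bool → Prop := Sum.elim (fun a => Sum.elim
    (fun b => R a.1.1 b.1.1 ∧ b.1.2.2.2.1 = a.1.2.2.2 + 1) fun b => a.1.2.2.2.1 = n ∧ b.2.1.1 ≤ n) fun _ _ => False
  let I := fun μ : List _ => μ.flatMap fun r => (ru r).2.2.1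
  let I' := fun μ : List _ => μ.flatMap fun r => (ru' r).2.2.1
  let K := fun α : List Γ => α.map (inl (β := Bool)) ++ [inr false]
  have s0 : ∀ (x : S) α v g, x.1.2.1 = false → C ru' ((ru x.1.1).2.2.2.2, x.1.2.2.2) (K ((ru x.1.1).2.2.2.1 ++ α))
      v g → C ru' ((ru x.1.1).2.1, x.1.2.2.1) (K ((ru x.1.1).1 :: α)) (inl x :: v) g := fun x α v g e c => by
    simpa [ru', K, e] using Cp.cons (r := inl x) (α := K α) (by simpa [ru', K, e] using c : C ru' _ _ v g)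
  have s1 : ∀ (j : Fin (n + 2)) (hj : j.1 ≤ n) v f u p α, C ru p α (u ++ v) f → ∃ p₂ α₂, C ru p₂ α₂ v f ∧
      ∀ v' g, C ru' (p₂, j) (K α₂) v' g → C ru' (p, j) (K α)
        (u.map (fun r => inl ⟨(r, false, j, j), le_rfl, hj, nofun⟩) ++ v') g := fun j hj v f u => by
    induction u with
    | nil => exact fun p α c => ⟨p, α, c, fun _ _ => id⟩
    | cons r u ih =>
      rintro _ _ (_ | c)
      obtain ⟨p, α, a, b⟩ := ih _ _ c
      exact ⟨p, α, a, fun _ _ d => s0 ⟨(r, false, j, j), _⟩ _ _ _ rfl (b _ _ d)⟩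
  have s2 : ∀ (f : F) k i, ∃ c u, u.length = k ∧ I' u = [] ∧ C ru' (f, i) [inr false] (inr (f, i, c) :: u)
      (f, .last _) := fun f k => by
    induction k with
    | zero => exact fun i => ⟨false, [], rfl, rfl, .cons (r := inr (f, i, false)) (.nil _)⟩
    | succ k ih =>
      obtain ⟨c, u, a, b, d⟩ := ih (.last _)
      exact fun i => ⟨true, inr (f, _, c) :: u, by simp [a], b, .cons (r := inr (f, i, true)) d⟩
  have s3 : ∀ k (f : F) m (h : S) v p α, h.1.2.2.2 + m = n → Bl R k m h.1.1 v → C ru p α v f → ∃ v' g,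
      C ru' (p, h.1.2.2.2) (K α) v' g ∧ Bl R' k (m + 1) (inl h) v' ∧ I' v' = I v := fun k f m => by
    induction m with
    | zero =>
      rintro h _ p α e rfl c
      obtain ⟨rfl, rfl⟩ : p = f ∧ α = [] := by generalize f.1 = f' at c; cases c; exact ⟨rfl, rfl⟩
      obtain ⟨c, u, a, b, d⟩ := s2 f k h.1.2.2.2
      exact ⟨_, _, d, ⟨inr (f, _, c), u, [], by simp, a, ⟨e, h.2.2.1⟩, rfl⟩, b⟩
    | succ m ih =>
      rintro h _ _ _ e ⟨r, u, v, rfl, rfl, a, b⟩ (_ | c)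
      let x : S := ⟨(r, false, h.1.2.2.2, ⟨h.1.2.2.2 + 1, by omega⟩), by simp, by simp; omega, nofun⟩
      obtain ⟨p, α, c, d⟩ := s1 x.1.2.2.2 x.2.2.1 _ _ _ _ _ c
      obtain ⟨v', g, b1, b2, b3⟩ := ih x v p α (by simp [x]; omega) b c
      exact ⟨_, g, s0 x _ _ _ rfl (d _ _ b1), ⟨_, _, v', rfl, by simp, ⟨a, rfl⟩, b2⟩, by
        simp only [I, I'] at *; simp [b3, flatMap_map, ru', x]⟩
  have mo := fun p α μ q => mono (top := fun r => (ru' r).1) (push := fun r => (ru' r).2.2.2.1) (p := p)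
    (src := fun r => (ru' r).2.1) (tgt := fun r => (ru' r).2.2.2.2) (α := α) (μ := μ) (q := q) (·.2.1)
    (Sum.forall.2 ⟨fun x => x.2.1, fun x => x.2.1.le_last⟩)
  have t1 : ∀ x k m v' g u p i α, Bl R' k (m + 1) x v' → C ru' (p, i) (K α) (u ++ v') g → ∃ (s : List S)
      (p₂ i₂ α₂ : _), u = s.map inl ∧ C ru' (p₂, i₂) (K α₂) v' g ∧
        ∀ v f, C ru p₂ α₂ v f → C ru p α (s.map (·.1.1) ++ v) f := fun x k m v' g u p i α b => by
    obtain ⟨y, _, _, rfl, -, b, -⟩ := b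
    induction u generalizing p i α with
    | nil => exact fun c => ⟨[], p, i, α, rfl, c, fun _ _ => id⟩
    | cons z u ih =>
      intro c'
      have := rel_of_pairwise_cons (mo _ _ _ _ c').2 (mem_append_right u (.head _))
      obtain ⟨e, β, e', c⟩ := inv c'
      clear c'
      obtain ⟨⟨r, _ | _, _, j⟩, hz⟩ | z := z
      · obtain _ | ⟨_, α⟩ := α <;> cases e'
        cases e
        obtain ⟨s, p, i, α, rfl, a, b⟩ := ih _ j ((ru r).2.2.2.1 ++ α) (by simpa [ru', K] using c)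
        exact ⟨_ :: s, p, i, α, rfl, a, fun _ _ d => .cons (b _ _ d)⟩
      · obtain _ | ⟨_, α⟩ := α <;> cases e'
      · obtain x | x := x <;> obtain y | y := y <;> simp only [R', ru', elim_inl, elim_inr, Fin.val_last] at *
        exacts [by have := y.2; omega, by omega]
  have t2 : ∀ p α v g, C ru' p α v g → α = [inr false] ∨ α = [] → I' v = [] := fun _ _ _ _ c => by
    induction c with
    | nil => exact fun _ => rfl
    | @cons r _ _ _ _ ih =>
      obtain ⟨⟨_, _ | _, _⟩, _⟩ | ⟨_, _, _ | _⟩ := r <;> rintro (⟨⟨⟩⟩ | ⟨⟨⟩⟩)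
      exacts [ih (.inr rfl), ih (.inl rfl)]
  have t3 : ∀ k g m (h : S) v' p i α, h.1.2.2.2 + m = n → Bl R' k (m + 1) (inl h) v' → C ru' (p, i) (K α) v' g →
      ∃ v, ∃ f ∈ F, C ru p α v f ∧ Bl R k m h.1.1 v ∧ I' v' = I v := fun k g m => by
    induction m with
    | zero =>
      rintro h _ p i α e ⟨x | x, u, _, rfl, -, a, rfl⟩ c
      · have := x.2; have := a.2; omega
      obtain ⟨⟨⟩, β, e', -⟩ := inv c
      obtain _ | ⟨_, α⟩ := α <;> cases e'
      exact ⟨[], _, x.1.2, .nil _, rfl, t2 _ _ _ _ c (.inl rfl)⟩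
    | succ m ih =>
      rintro h _ p i α e ⟨x | x, u, v', rfl, rfl, a, b⟩ c
      swap; · have := a.1; omega
      obtain ⟨_ | ⟨_, s⟩, p, i, α, ⟨⟩, c, d⟩ := t1 _ _ _ _ _ _ _ _ _ b c
      obtain ⟨v, f, b1, b2, b3, b4⟩ := ih x _ _ _ _ (by have := a.2; omega) b c
      exact ⟨_, f, b1, d _ _ b2, ⟨_, s.map (·.1.1), v, rfl, by simp, a.1, b3⟩, by
        simp only [I, I'] at *; simp [b4, flatMap_map, ru']⟩
  refine ⟨_, _, _, inferInstance, inferInstance, inferInstance, ru', (q₀, 0), (qt, 0), inr true, Set.univ,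
    R', ?_, Set.ext fun w => ⟨?_, ?_⟩⟩
  · rintro (⟨⟨r, _ | _, _⟩, a⟩ | ⟨_, _, _ | _⟩) (⟨⟨r', _ | _, _⟩, a'⟩ | ⟨_, _, _ | _⟩) <;>
      simp +contextual [ru', S, Prod.ext_iff, Subtype.ext_iff, List.map_inj_right]
    · exact fun a b _ c d e _ => hi (by simp [Prod.ext_iff, *])
    · exact fun b _ c d e _ => hi (by simp [Prod.ext_iff, (a.2.2 rfl).1, (a'.2.2 rfl).1, *])
  · rintro ⟨f, a, h, u, v, c, b, d⟩
    obtain ⟨c', rfl⟩ := comp_iff.1 c
    obtain ⟨rfl, _, ⟨⟩, c⟩ := inv c'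
    obtain ⟨p, α, c, e⟩ := s1 0 (by simp) _ _ _ _ _ c
    let x : S := ⟨(h, true, 0, 0), le_rfl, by simp, fun _ => ⟨rfl, rfl⟩⟩
    obtain ⟨v', g, b1, b2, b3⟩ := s3 _ ⟨f, a⟩ _ x v p α (by simp [x]) d c
    refine ⟨g, trivial, inl x, _, v', comp_iff.2 ⟨.cons (r := inl x) (by simpa [K, ru', x] using e _ _ b1), by
      simp only [I, I'] at *; simp [b3, flatMap_map, ru', x]⟩, fst_cons.2 ((fst_cons.1 b).imp
        (by simp [ru', x]) (And.imp (by simp [ru', x]) ?_)), by simpa using b2⟩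
    rintro ⟨u, r, rfl, a, b⟩
    exact ⟨_, _, map_append, by simp [ru', a], forall_mem_map.2 (by simpa [ru'] using b)⟩
  · rintro ⟨g, -, h, u, v', c, b, d⟩
    obtain ⟨c', rfl⟩ := comp_iff.1 c
    clear c
    have pw := (pairwise_append.1 (mo _ _ _ _ c').2).1
    obtain ⟨e, β, e', c⟩ := inv c'
    clear c'
    obtain ⟨⟨r, _ | _, i, j⟩, hx⟩ | _ := h <;> cases e'
    obtain ⟨rfl, ⟨⟩⟩ := hx.2.2 rfl
    cases e
    obtain ⟨s, p, i, α, rfl, c, e⟩ := t1 _ _ _ _ _ u _ _ (ru r).2.2.2.1 d (by simpa [K, ru'] using c)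
    obtain ⟨v, f, b1, b2, b3, b4⟩ := t3 _ _ _ _ _ _ _ _ (by simp) d c
    refine ⟨f, b1, r, s.map (·.1.1), v, comp_iff.2 ⟨.cons (by simpa using e _ _ b2), by
      simp only [I, I'] at *; simp [b4, flatMap_map, ru']⟩, ?_, by simpa using b3⟩
    obtain ⟨_, _, e, a, b⟩ := b
    obtain ⟨l, l', e', rfl, e''⟩ := map_eq_append_iff.1 ((map_cons ..).trans e)
    obtain ⟨y, rfl, rfl⟩ := map_eq_singleton_iff.1 e''
    rw [e, pairwise_append] at pw
    refine ⟨l.map (·.1.1), y.1.1, by simpa using congrArg (map (·.1.1)) e', congrArg Prod.fst a,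
      forall_mem_map.2 fun z q (t : (ru z.1.1).2.2.2.2 = qt) => b _ (mem_map_of_mem q) (Prod.ext t (Fin.ext ?_))⟩
    have := pw.2.2 _ (mem_map_of_mem q) _ (.head _)
    have := y.2.1
    have := congrArg (·.2.1) a
    simp only [ru', elim_inl, Fin.val_zero] at *
    omega

theorem result (n : ℕ) : FSPDA n ⊂ FSPDA (n + 1) :=
  ⟨incl n, fun h => (wit (n + 1)).elim fun _ a => low (by omega) (h a.1) a.2.1 a.2.2⟩

end Pool.Agent.Results.MP_e3bf5d_lc.Hier
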